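import Pool.Agent.Lib.helper21.NS
set_option linter.style.longLine false
namespace Pool.Agent.H.MP_4e3057_lc
open Set Cardinal Order Function Pool.Agent.Lib.helper21.NS

/-- strictly increasing and preserving existing suprema and infima of nonempty sets -/
def Good {A B : Type} [LinearOrder A] [LinearOrder B] (f : A → B) : Prop :=
  StrictMono f ∧ (∀ s a, s.Nonempty → IsLUB s a → IsLUB (f '' s) (f a)) ∧
    ∀ s a, s.Nonempty → IsGLB s a → IsGLB (f '' s) (f a)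

section
variable {A B C : Type} [LinearOrder A] [LinearOrder B] [LinearOrder C]

lemma Good.comp {f : A → B} {g : B → C} (hg : Good g) (hf : Good f) : Good (g ∘ f) :=
  ⟨hg.1.comp hf.1, fun s a h k => image_comp g f s ▸ hg.2.1 _ _ (h.image f) (hf.2.1 s a h k),
    fun s a h k => image_comp g f s ▸ hg.2.2 _ _ (h.image f) (hf.2.2 s a h k)⟩

lemma Good.dual {f : Aᵒᵈ → B} (hf : Good f) : Good (A := A) (B := Bᵒᵈ) f :=
  ⟨fun _ _ h => hf.1 h, hf.2.2, hf.2.1⟩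

lemma good_of {f : A → B} (hf : StrictMono f) (hc : ∀ a b u, f a ≤ u → u ≤ f b → u ∈ range f) : Good f := by
  refine ⟨hf, fun s a ⟨x, hx⟩ h => ⟨?_, fun u hu => not_lt.1 fun l => ?_⟩,
    fun s a ⟨x, hx⟩ h => ⟨?_, fun u hu => not_lt.1 fun l => ?_⟩⟩
  · rintro _ ⟨y, hy, rfl⟩; exact hf.monotone (h.1 hy)
  · obtain ⟨b, rfl⟩ := hc x a u (hu ⟨x, hx, rfl⟩) l.le
    exact (hf.monotone (h.2 fun y hy => hf.le_iff_le.1 (hu ⟨y, hy, rfl⟩))).not_gt l
  · rintro _ ⟨y, hy, rfl⟩; exact hf.monotone (h.1 hy)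
  · obtain ⟨b, rfl⟩ := hc a x u l.le (hu ⟨x, hx, rfl⟩)
    exact (hf.monotone (h.2 fun y hy => hf.le_iff_le.1 (hu ⟨y, hy, rfl⟩))).not_gt l

lemma Good.top {f : WithTop A → B} (hf : Good f) [Nonempty A] [NoMaxOrder A] {u : B} (h : u < f ⊤) :
    ∃ a : A, u < f a := by
  have : IsLUB (range ((↑) : A → WithTop A)) ⊤ := ⟨fun _ _ => le_top, fun v hv => by
    induction v with
    | top => exact le_rfl
    | coe v => obtain ⟨w, hw⟩ := exists_gt v; exact absurd (hv ⟨w, rfl⟩) (by simpa using hw)⟩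
  obtain ⟨_, ⟨_, ⟨a, rfl⟩, rfl⟩, k⟩ := (lt_isLUB_iff (hf.2.1 _ _ (range_nonempty _) this)).1 h
  exact ⟨a, k⟩
end

/-- a linear order with a largest point -/
structure PO where
  T : Type
  [lo : LinearOrder T]
  [tp : OrderTop T]
attribute [instance] PO.lo PO.tp

def Inc (A B : PO) : Prop :=
  ∀ (U : Type) [LinearOrder U] (f : A.T → U) (g : B.T → U), Good f → Good g → f ⊤ ≠ g ⊤

variable {X : Type} [LinearOrder X]

noncomputable def sm (M : X → PO) : PO := ⟨WithTop (Σₗ x, (M x).Tᵒᵈ)⟩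

def io (M : X → PO) (x : X) (t : (M x).Tᵒᵈ) : WithTop (Σₗ x, (M x).Tᵒᵈ) := ↑(toLex (⟨x, t⟩ : Σ x, (M x).Tᵒᵈ))

lemma io_lt {M : X → PO} {x y : X} (h : x < y) (s t) : io M x s < io M y t :=
  WithTop.coe_lt_coe.2 (Sigma.Lex.left _ _ h)

lemma io_le {M : X → PO} {x y : X} {s t} (h : io M x s ≤ io M y t) : x ≤ y :=
  not_lt.1 fun l => (io_lt l _ _).not_ge h

lemma io_good (M : X → PO) (x : X) : Good (io M x) := by
  refine good_of (fun s t h => WithTop.coe_lt_coe.2 (Sigma.Lex.right _ _ h)) fun a b u i j => ?_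
  induction u with
  | top => simp [io] at j
  | coe u =>
    obtain ⟨y, t⟩ := u
    obtain rfl : x = y := le_antisymm (io_le (t := t) i) (io_le (s := t) j)
    exact ⟨t, rfl⟩

lemma io_lub (M : X → PO) {x : X} (h : ∀ y < x, ∃ z, y < z ∧ z < x) :
    IsLUB ((fun y => io M y ⊥) '' Iio x) (io M x ⊥) := by
  refine ⟨by rintro _ ⟨y, hy, rfl⟩; exact (io_lt hy _ _).le, fun u hu => ?_⟩
  induction u with
  | top => exact le_top
  | coe u =>
    obtain ⟨y, t⟩ := u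
    rcases lt_trichotomy y x with l | rfl | l
    · obtain ⟨z, a, b⟩ := h y l
      exact absurd (io_le (t := t) (hu ⟨z, b, rfl⟩)) a.not_ge
    · exact (io_good M y).1.monotone bot_le
    · exact (io_lt l _ t).le

theorem closure_pt {T : Set X} (hT : ¬ J T) (F : X → X) : ∃ x ∈ T, ∀ a, a < x → F a < x := by
  classical
  by_contra h
  push Not at h
  choose! f h1 h2 using h
  exact hT ⟨f, fun x hx _ => h1 x hx, fun y => ⟨F y, fun x hx => hx.2 ▸ h2 x hx.1⟩⟩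

lemma key (R : Reg X) {M N : X → PO} (h : ¬ J {x | Inc (M x) (N x)}) : Inc (sm M) (sm N) := by
  intro U _ f g hf hg e
  obtain ⟨a0⟩ := R.nonempty
  have tp : ∀ (M : X → PO) (f : WithTop (Σₗ x, (M x).Tᵒᵈ) → U), Good f → ∀ u < f ⊤, ∃ b, ∀ c, b < c → u < f (io M c ⊥) := by
    intro M f hf u hu
    have : Nonempty (Σₗ x, (M x).Tᵒᵈ) := ⟨toLex ⟨a0, ⊥⟩⟩
    have : NoMaxOrder (Σₗ x, (M x).Tᵒᵈ) := ⟨fun ⟨x, t⟩ => by
      obtain ⟨y, hy⟩ := R.exists_gt x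
      exact ⟨toLex ⟨y, ⊥⟩, Sigma.Lex.left _ _ hy⟩⟩
    obtain ⟨⟨b, t⟩, k⟩ := hf.top hu
    exact ⟨b, fun c l => k.trans (hf.1 (io_lt l t _))⟩
  have : ∀ a, ∃ c, a < c ∧ f (io M a ⊥) < g (io N c ⊥) ∧ g (io N a ⊥) < f (io M c ⊥) := fun a => by
    obtain ⟨b, hb⟩ := tp N g hg (f (io M a ⊥)) (e ▸ hf.1 (WithTop.coe_lt_top _))
    obtain ⟨b', hb'⟩ := tp M f hf (g (io N a ⊥)) (e ▸ hg.1 (WithTop.coe_lt_top _))
    obtain ⟨c, hc⟩ := R.exists_gt (max a (max b b'))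
    simp only [max_lt_iff] at hc
    exact ⟨c, hc.1, hb c hc.2.1, hb' c hc.2.2⟩
  choose F f1 f2 f3 using this
  obtain ⟨x, ⟨x1, x2⟩, x3⟩ := closure_pt (T := {x | Inc (M x) (N x)} ∩ Ioi a0) (fun k => h
    ((J_union R k (J_bdd (bddAbove_Iic (a := a0)))).mono fun x hx => (lt_or_ge a0 x).imp (fun l => ⟨hx, l⟩) id)) F
  have l1 := hf.2.1 _ _ (Set.Nonempty.image _ ⟨a0, x2⟩) (io_lub M fun y hy => ⟨_, f1 y, x3 y hy⟩)
  have l2 := hg.2.1 _ _ (Set.Nonempty.image _ ⟨a0, x2⟩) (io_lub N fun y hy => ⟨_, f1 y, x3 y hy⟩)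
  refine x1 Uᵒᵈ _ _ (hf.comp (io_good M x)).dual (hg.comp (io_good N x)).dual (le_antisymm (α := U) (l1.2 ?_) (l2.2 ?_))
  · rintro _ ⟨_, ⟨y, hy, rfl⟩, rfl⟩
    exact (f2 y).le.trans (l2.1 ⟨_, ⟨_, x3 y hy, rfl⟩, rfl⟩)
  · rintro _ ⟨_, ⟨y, hy, rfl⟩, rfl⟩
    exact (f3 y).le.trans (l1.1 ⟨_, ⟨_, x3 y hy, rfl⟩, rfl⟩)

def Fam (κ c : Cardinal.{0}) : Prop :=
  ∃ (I : Type) (M : I → PO), #I = c ∧ (∀ i, #(M i).T ≤ κ) ∧ ∀ i j, i ≠ j → Inc (M i) (M j)

lemma fam_prod [WellFoundedLT X] (R : Reg X) {κ : Cardinal.{0}} (hκ : #X ≤ κ) {c : X → Cardinal.{0}}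
    (h : ∀ x, Fam κ (c x)) : Fam κ (prod c) := by
  choose I M h1 h2 h3 using h
  obtain ⟨g, hg⟩ := split R
  obtain ⟨π⟩ := (Cardinal.le_def X {y | ¬ J {x | g x = y}}).1 hg
  have := R.nonempty
  have inj : Injective fun x => (π x).1 := Subtype.val_injective.comp π.injective
  let r := fun x => invFun (fun x => (π x).1) (g x)
  have k : ℵ₀ ≤ κ := R.unc.le.trans hκ
  refine ⟨∀ x, I x, fun η => sm fun x => M (r x) (η (r x)), by rw [mk_pi]; simp [h1], fun η => ?_, fun η ζ n => ?_⟩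
  · change #(Option (Σ x, (M (r x) (η (r x))).T)) ≤ κ
    rw [mk_option, mk_sigma]
    refine add_le_of_le k ((sum_le_sum _ (fun _ => κ) fun x => h2 _ _).trans ?_) (one_le_aleph0.trans k)
    simpa using mul_le_of_le k hκ le_rfl
  · obtain ⟨y, hy⟩ := ne_iff.1 n
    refine key R fun k => (π y).2 (k.mono fun x hx => h3 _ _ _ ?_)
    have : r x = y := by simp only [r]; rw [show g x = _ from hx]; exact leftInverse_invFun inj y
    rwa [this]

lemma fam_two {κ : Cardinal.{0}} (hκ : ℵ₀ < κ) : Fam κ 2 := by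
  have R := reg_of_isRegular isRegular_aleph_one aleph0_lt_aleph_one
  set W := (ℵ₁ : Cardinal.{0}).ord.ToType
  have := R.nonempty
  have : NoMaxOrder W := ⟨R.exists_gt⟩
  have k : Inc ⟨WithTop ℕ⟩ ⟨WithTop W⟩ := by
    intro U _ f g hf hg e
    choose b hb using fun n : ℕ => hg.top (u := f n) (e ▸ hf.1 (WithTop.coe_lt_top _))
    obtain ⟨c, hc⟩ := R.bdd (range b) (mk_range_le.trans_lt (by simp [W]))
    obtain ⟨n, hn⟩ := hf.top (u := g c) (e ▸ hg.1 (WithTop.coe_lt_top _))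
    exact (hn.trans (hb n)).not_ge (hg.1.monotone (WithTop.coe_le_coe.2 (hc ⟨n, rfl⟩)))
  refine ⟨Bool, fun b => if b then ⟨WithTop ℕ⟩ else ⟨WithTop W⟩, by simp, ?_, ?_⟩
  · rintro (_ | _)
    · change #(Option W) ≤ κ
      simpa [W] using (succ_le_of_lt hκ)
    · change #(Option ℕ) ≤ κ
      simpa using hκ.le
  · rintro (_ | _) (_ | _) h
    · exact absurd rfl h
    · exact fun U _ f g a b => (k U g f b a).symm
    · exact k
    · exact absurd rfl h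

lemma fam_big {κ : Cardinal.{0}} (hκ : ℵ₀ < κ) : ∃ c, κ < c ∧ Fam κ c := by
  have A : ∀ μ : Cardinal.{0}, μ.IsRegular → ℵ₀ < μ → μ ≤ κ → Fam κ (2 ^ μ) := fun μ a b c => by
    simpa using fam_prod (reg_of_isRegular a b) (by simpa using c) fun _ => fam_two hκ
  by_cases r : κ.IsRegular
  · exact ⟨_, cantor κ, A κ r hκ le_rfl⟩
  have mk : #κ.ord.ToType = κ := mk_ord_toType κ
  set Y := κ.ord.ToType
  obtain ⟨s, s1, s2⟩ := Order.exists_cof_eq Y
  have c1 : #s < κ := by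
    rw [s2, Ordinal.cof_toType]
    exact (Ordinal.cof_ord_le κ).lt_of_ne fun h => r ⟨hκ.le, h.ge⟩
  have mx : ∀ {μ}, μ < κ → succ (max μ ℵ₀) ≤ κ := fun h => succ_le_of_lt (max_lt h hκ)
  have rg : ∀ μ : Cardinal.{0}, (succ (max μ ℵ₀)).IsRegular := fun _ => isRegular_succ (le_max_right _ _)
  have un : ∀ μ : Cardinal.{0}, ℵ₀ < succ (max μ ℵ₀) := fun _ => lt_succ_of_le (le_max_right _ _)
  have R := reg_of_isRegular (rg #s) (un _)
  obtain ⟨e⟩ := (Cardinal.le_def s (succ (max #s ℵ₀)).ord.ToType).1 (by simpa using (le_max_left _ _).trans (le_succ _))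
  have : Nonempty Y := mk_ne_zero_iff.1 (mk ▸ (aleph0_pos.trans hκ).ne')
  have : Nonempty s := s1.nonempty.to_subtype
  let k := fun x => #(Iic (invFun e x).1)
  have hk : ∀ x, k x < κ := fun x => (mk_Iic_lt _ (by simp [Y]) (mk ▸ hκ.le)).trans_eq mk
  refine ⟨_, lt_of_le_of_lt ?_ (sum_lt_prod k (fun x => 2 ^ succ (max (k x) ℵ₀)) fun x =>
    ((le_max_left _ _).trans (le_succ _)).trans_lt (cantor _)),
    fam_prod R (by simpa using mx c1) fun x => A _ (rg _) (un _) (mx (hk x))⟩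
  refine le_trans ?_ mk_iUnion_le_sum_mk
  refine (mk.symm.trans mk_univ.symm).le.trans (mk_le_mk_of_subset fun y _ => ?_)
  obtain ⟨z, z1, z2⟩ := s1 y
  exact mem_iUnion.2 ⟨e ⟨z, z1⟩, by rw [leftInverse_invFun e.injective]; exact z2⟩

end Pool.Agent.H.MP_4e3057_lc
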